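import Pool.Agent.helper45.PV.SpecG

/-!
# Project pv (MP_376aaf_an), row pvg:SUS: the reduced suspension as a space
-/

set_option autoImplicit false

open scoped Matrix Topology

namespace Pool.Agent.PV

open Pool.Agent.CZ

/-- the algebra of functions on `circle × Y₀` constant on `0 × Y₀` and on `circle × y₀` -/
noncomputable def SUS_R (Y₀ : Type) [TopologicalSpace Y₀] (y₀ : Y₀) :
    StarSubalgebra ℂ C(UnitAddCircle × Y₀, ℂ) where
  carrier := {h | (∀ a a' : Y₀, h (0, a) = h (0, a')) ∧ ∀ t t' : UnitAddCircle, h (t, y₀) = h (t', y₀)}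
  mul_mem' := by
    rintro f g ⟨hf, hf'⟩ ⟨hg, hg'⟩
    refine ⟨fun a a' => ?_, fun t t' => ?_⟩
    · rw [ContinuousMap.mul_apply, ContinuousMap.mul_apply, hf a a', hg a a']
    · rw [ContinuousMap.mul_apply, ContinuousMap.mul_apply, hf' t t', hg' t t']
  add_mem' := by
    rintro f g ⟨hf, hf'⟩ ⟨hg, hg'⟩
    refine ⟨fun a a' => ?_, fun t t' => ?_⟩
    · rw [ContinuousMap.add_apply, ContinuousMap.add_apply, hf a a', hg a a']
    · rw [ContinuousMap.add_apply, ContinuousMap.add_apply, hf' t t', hg' t t']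
  algebraMap_mem' := fun c => ⟨fun _ _ => rfl, fun _ _ => rfl⟩
  star_mem' := by
    rintro f ⟨hf, hf'⟩
    refine ⟨fun a a' => ?_, fun t t' => ?_⟩
    · rw [ContinuousMap.star_apply, ContinuousMap.star_apply, hf a a']
    · rw [ContinuousMap.star_apply, ContinuousMap.star_apply, hf' t t']

theorem SUS_mem (Y₀ : Type) [TopologicalSpace Y₀] (y₀ : Y₀) (h : C(UnitAddCircle × Y₀, ℂ)) :
    h ∈ SUS_R Y₀ y₀ ↔ (∀ a a' : Y₀, h (0, a) = h (0, a')) ∧
      ∀ t t' : UnitAddCircle, h (t, y₀) = h (t', y₀) := Iff.rfl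

theorem SUS_closed (Y₀ : Type) [TopologicalSpace Y₀] (y₀ : Y₀) :
    IsClosed (SUS_R Y₀ y₀ : Set C(UnitAddCircle × Y₀, ℂ)) := by
  have h : (SUS_R Y₀ y₀ : Set C(UnitAddCircle × Y₀, ℂ)) =
      (⋂ a : Y₀, ⋂ a' : Y₀, {h : C(UnitAddCircle × Y₀, ℂ) | h (0, a) = h (0, a')}) ∩
      ⋂ t : UnitAddCircle, ⋂ t' : UnitAddCircle,
        {h : C(UnitAddCircle × Y₀, ℂ) | h (t, y₀) = h (t', y₀)} := by
    ext h
    simp only [SetLike.mem_coe, SUS_mem, Set.mem_inter_iff, Set.mem_iInter, Set.mem_ofPred_eq]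
  rw [h]
  refine IsClosed.inter ?_ ?_
  · exact isClosed_iInter fun a => isClosed_iInter fun a' =>
      isClosed_eq (continuous_eval_const _) (continuous_eval_const _)
  · exact isClosed_iInter fun a => isClosed_iInter fun a' =>
      isClosed_eq (continuous_eval_const _) (continuous_eval_const _)

/-- currying as a homomorphism of algebras -/
noncomputable def SUS_cur (Y₀ : Type) [TopologicalSpace Y₀] [CompactSpace Y₀] :
    C(UnitAddCircle × Y₀, ℂ) →ₐ[ℂ] C(UnitAddCircle, C(Y₀, ℂ)) where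
  toFun h := h.curry
  map_one' := rfl
  map_mul' _ _ := rfl
  map_zero' := rfl
  map_add' _ _ := rfl
  commutes' _ := rfl

theorem SUS_cur_apply (Y₀ : Type) [TopologicalSpace Y₀] [CompactSpace Y₀]
    (h : C(UnitAddCircle × Y₀, ℂ)) (t : UnitAddCircle) (a : Y₀) : SUS_cur Y₀ h t a = h (t, a) := rfl

/-- **SUS** -/
theorem SUS (hSUB : SUB_stmt) : SUS_stmt := by
  intro Y₀ _ _ _ _ y₀
  obtain ⟨Y, tY, cY, mY, p, hp, hR⟩ := hSUB (UnitAddCircle × Y₀) (SUS_R Y₀ y₀) (SUS_closed Y₀ y₀)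
  have hZ : PathConnectedSpace (UnitAddCircle × Y₀) := inferInstance
  have hY : PathConnectedSpace Y := hp.pathConnectedSpace p.continuous
  have hmem : ∀ h : C(Y, ℂ), (SUS_cur Y₀).comp (pbC ℂ p) h ∈ L2s (evC ℂ y₀) := by
    intro h
    have h1 : h.comp p ∈ SUS_R Y₀ y₀ := (hR _).2 ⟨h, rfl⟩
    rw [SUS_mem] at h1
    refine ⟨⟨h (p (0, y₀)), ?_⟩, h (p (0, y₀)), fun t => ?_⟩
    · ext a
      exact h1.1 a y₀
    · exact h1.2 t 0
  let F : C(Y, ℂ) →ₐ[ℂ] L2 (evC ℂ y₀) :=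
    (AlgHom.codRestrict ((SUS_cur Y₀).comp (pbC ℂ p)) (L2s (evC ℂ y₀)) hmem :
      C(Y, ℂ) →ₐ[ℂ] ↥(L2s (evC ℂ y₀)))
  have hF : ∀ (h : C(Y, ℂ)) (t : UnitAddCircle) (a : Y₀), v2 (evC ℂ y₀) (F h) t a = h (p (t, a)) :=
    fun _ _ _ => rfl
  have hnorm : ∀ h : C(Y, ℂ), ‖F h‖ = ‖h‖ := by
    intro h
    rw [← v2_norm]
    refine le_antisymm ?_ ?_
    · refine (ContinuousMap.norm_le _ (norm_nonneg _)).2 fun t => ?_
      refine (ContinuousMap.norm_le _ (norm_nonneg _)).2 fun a => ?_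
      rw [hF]
      exact h.norm_coe_le_norm _
    · refine (ContinuousMap.norm_le _ (norm_nonneg _)).2 fun z => ?_
      obtain ⟨⟨t, a⟩, rfl⟩ := hp z
      rw [← hF]
      exact ((v2 (evC ℂ y₀) (F h) t).norm_coe_le_norm a).trans
        ((v2 (evC ℂ y₀) (F h)).norm_coe_le_norm t)
  have hiso : Isometry F := AddMonoidHomClass.isometry_of_norm F hnorm
  have hsurj : Function.Surjective F := by
    intro x
    let g : C(UnitAddCircle × Y₀, ℂ) := (v2 (evC ℂ y₀) x).uncurry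
    have hg : ∀ t a, g (t, a) = v2 (evC ℂ y₀) x t a := fun _ _ => rfl
    have hgR : g ∈ SUS_R Y₀ y₀ := by
      obtain ⟨⟨c, hc⟩, c', hc'⟩ := v2_mem (evC ℂ y₀) x
      rw [SUS_mem]
      refine ⟨fun a a' => ?_, fun t t' => ?_⟩
      · rw [hg, hg, hc]
        rfl
      · rw [hg, hg]
        exact (hc' t).trans (hc' t').symm
    obtain ⟨h, hh⟩ := (hR g).1 hgR
    refine ⟨h, v2_inj _ _ _ ?_⟩
    ext t a
    rw [hF, ← hg, ← hh]
    rfl
  let Θ : C(Y, ℂ) ≃ₐ[ℂ] L2 (evC ℂ y₀) := AlgEquiv.ofBijective F ⟨hiso.injective, hsurj⟩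
  refine ⟨Y, tY, cY, mY, hY, p (0, y₀), Θ, hiso.continuous, ?_, fun h => rfl⟩
  have hs : Isometry Θ.symm := by
    refine AddMonoidHomClass.isometry_of_norm Θ.symm fun x => ?_
    rw [← hnorm (Θ.symm x)]
    exact congrArg norm (Θ.apply_symm_apply x)
  exact hs.continuous

end Pool.Agent.PV
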