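import Pool.Agent.helper77.PV.SpecA

/-! Row GLC of project PV (MP_376aaf_an) -/

set_option autoImplicit false

open scoped Matrix Topology
open Filter

namespace Pool.Agent.PV

open Pool.Agent.CZ

/-- the polynomial `det ((1 - z) g + z)` -/
noncomputable def GLC_p {ι : Type} [Fintype ι] [DecidableEq ι] (g : Matrix ι ι ℂ) : Polynomial ℂ :=
  Matrix.det (fun i j => (1 - Polynomial.X) * Polynomial.C (g i j) +
    Polynomial.X * Polynomial.C ((1 : Matrix ι ι ℂ) i j) : Matrix ι ι (Polynomial ℂ))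

theorem GLC_eval {ι : Type} [Fintype ι] [DecidableEq ι] (g : Matrix ι ι ℂ) (z : ℂ) :
    (GLC_p g).eval z = ((1 - z) • g + z • (1 : Matrix ι ι ℂ)).det := by
  have h := RingHom.map_det (Polynomial.evalRingHom z)
    (fun i j => (1 - Polynomial.X) * Polynomial.C (g i j) +
    Polynomial.X * Polynomial.C ((1 : Matrix ι ι ℂ) i j) : Matrix ι ι (Polynomial ℂ))
  rw [Polynomial.coe_evalRingHom] at h
  rw [GLC_p, h]
  congr 1
  ext i j
  show Polynomial.eval z ((1 - Polynomial.X) * Polynomial.C (g i j) +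
    Polynomial.X * Polynomial.C ((1 : Matrix ι ι ℂ) i j)) = _
  rw [Matrix.add_apply, Matrix.smul_apply, Matrix.smul_apply, smul_eq_mul, smul_eq_mul]
  simp only [Polynomial.eval_add, Polynomial.eval_mul, Polynomial.eval_sub, Polynomial.eval_one,
    Polynomial.eval_X, Polynomial.eval_C]

theorem GLC : GLC_stmt := by
  intro ι _ _ g
  have h0 : (GLC_p (g : Matrix ι ι ℂ)).eval 0 ≠ 0 := by
    rw [GLC_eval]
    have h1 : IsUnit (g : Matrix ι ι ℂ) := g.isUnit
    rw [Matrix.isUnit_iff_isUnit_det] at h1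
    simpa using h1.ne_zero
  have h1 : (GLC_p (g : Matrix ι ι ℂ)).eval 1 ≠ 0 := by
    rw [GLC_eval]
    simp
  have hp : GLC_p (g : Matrix ι ι ℂ) ≠ 0 := by
    intro h
    rw [h] at h0
    simp at h0
  have hfin : {z : ℂ | (GLC_p (g : Matrix ι ι ℂ)).IsRoot z}.Finite :=
    Polynomial.finite_setOf_isRoot hp
  have hpc : IsPathConnected ({z : ℂ | (GLC_p (g : Matrix ι ι ℂ)).IsRoot z}ᶜ) := by
    refine Set.Countable.isPathConnected_compl_of_one_lt_rank ?_ hfin.countable
    rw [Complex.rank_real_complex]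
    norm_num
  obtain ⟨γ, hγ⟩ := hpc.joinedIn 0 h0 1 h1
  have hc : Continuous (fun t : unitInterval => (1 - γ t) • (g : Matrix ι ι ℂ) +
      γ t • (1 : Matrix ι ι ℂ)) := by
    have := γ.continuous
    fun_prop
  refine ⟨⟨_, hc⟩, ?_, ?_, ?_⟩
  · intro t
    rw [Matrix.isUnit_iff_isUnit_det, isUnit_iff_ne_zero]
    have := hγ t
    rw [Set.mem_compl_iff, Set.mem_setOf_eq, Polynomial.IsRoot.def, GLC_eval] at this
    exact this
  · simp
  · simp

end Pool.Agent.PV
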