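import Pool.Agent.helper77.PV.SpecA

/-! Row KC of project PV (MP_376aaf_an) -/

set_option autoImplicit false

open scoped Matrix Topology
open Filter

namespace Pool.Agent.PV

open Pool.Agent.CZ

theorem KC_rel : AddSubgroup.closure (K0Rel ℂ) ≤
    (FreeAbelianGroup.lift (fun p : IdemMat ℂ => p.e.trace)).ker := by
  rw [AddSubgroup.closure_le]
  rintro z (⟨p, q, ⟨x, y, h1, h2⟩, rfl⟩ | ⟨n, e, f, he, hf, hs, hef, hfe, rfl⟩)
  · change FreeAbelianGroup.lift _ _ = 0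
    rw [map_sub, FreeAbelianGroup.lift_apply_of, FreeAbelianGroup.lift_apply_of, sub_eq_zero, ← h1,
      ← h2, Matrix.trace_mul_comm]
  · change FreeAbelianGroup.lift _ _ = 0
    rw [map_sub, map_sub, FreeAbelianGroup.lift_apply_of, FreeAbelianGroup.lift_apply_of,
      FreeAbelianGroup.lift_apply_of, Matrix.trace_add]
    ring

/-- the trace on `K₀(ℂ)` -/
noncomputable def KC_tr : K0 ℂ →+ ℂ :=
  QuotientAddGroup.lift _ (FreeAbelianGroup.lift (fun p : IdemMat ℂ => p.e.trace)) KC_rel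

theorem KC_unit : KC_tr (unitCls ℂ) = 1 := by
  change FreeAbelianGroup.lift (fun p : IdemMat ℂ => p.e.trace) (FreeAbelianGroup.of _) = 1
  rw [FreeAbelianGroup.lift_apply_of]
  simp

theorem KC (hK0E : K0E_stmt) (hK0G : K0G_stmt) (hK0B : K0B_stmt) (hK1M : K1M_stmt)
    (hK1G : K1G_stmt) (hGLC : GLC_stmt) (hTRI : TRI_stmt) : KC_stmt := by
  refine ⟨?_, ?_, ?_⟩
  · intro z
    obtain ⟨n, m, e, he, rfl⟩ := hK0G ℂ z
    obtain ⟨r, x, y, -, hxy, hyx⟩ := hTRI (Fin n) e he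
    have h1 := hK0E ℂ (Fin n) (Fin r) e 1 he (one_mul 1) x y hxy hyx
    have h2 := hK0B.2.2 ℂ (Fin r) (one_mul 1)
    rw [h1, h2, Fintype.card_fin]
    refine ⟨(r : ℤ) - m, ?_⟩
    rw [sub_smul, natCast_zsmul, natCast_zsmul]
  · intro n hn
    have h1 := congrArg KC_tr hn
    rw [map_zsmul, KC_unit, map_zero] at h1
    simpa using h1
  · intro y
    obtain ⟨n, g, rfl⟩ := hK1G ℂ y
    obtain ⟨-, -, h1, h2⟩ := hK1M ℂ (Fin n) g 1
    rw [h2 (hGLC (Fin n) g), h1]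

end Pool.Agent.PV
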