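import Pool.Agent.helper77.PV.SpecA

/-! Row KT1 of project PV (MP_376aaf_an) -/

set_option autoImplicit false

open scoped Matrix Topology
open Filter

namespace Pool.Agent.PV

open Pool.Agent.CZ

section aux

variable {Ω : Type} [TopologicalSpace Ω] {m n : ℕ} (q : Ω → Fin m) (hq : Continuous q)

/-- the matrix over `C(Ω)` with the value `v (q x)` at `x` -/
def KT1_Φ : (Fin m → Matrix (Fin n) (Fin n) ℂ) → Matrix (Fin n) (Fin n) C(Ω, ℂ) := fun v i j =>
  ⟨fun x => v (q x) i j, (continuous_of_discreteTopology (f := fun k : Fin m => v k i j)).comp hq⟩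

theorem KT1_mul (v w : Fin m → Matrix (Fin n) (Fin n) ℂ) :
    KT1_Φ q hq (v * w) = KT1_Φ q hq v * KT1_Φ q hq w := by
  ext i j x
  rw [Matrix.mul_apply, ContinuousMap.coe_sum, Finset.sum_apply]
  change ((v * w) (q x)) i j = _
  rw [Pi.mul_apply, Matrix.mul_apply]
  rfl

theorem KT1_one : KT1_Φ q hq (1 : Fin m → Matrix (Fin n) (Fin n) ℂ) = 1 := by
  ext i j x
  change ((1 : Fin m → Matrix (Fin n) (Fin n) ℂ) (q x)) i j = _
  rw [Pi.one_apply, Matrix.one_apply, Matrix.one_apply]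
  split_ifs <;> rfl

theorem KT1_unit (v : Fin m → Matrix (Fin n) (Fin n) ℂ) (hv : ∀ k, IsUnit (v k)) :
    IsUnit (KT1_Φ q hq v) := by
  choose u hu using hv
  refine ⟨⟨KT1_Φ q hq v, KT1_Φ q hq (fun k => ((u k)⁻¹ : (Matrix (Fin n) (Fin n) ℂ)ˣ)), ?_, ?_⟩, rfl⟩
  · rw [← KT1_mul, ← KT1_one q hq]
    congr 1
    funext k
    rw [Pi.mul_apply, Pi.one_apply, ← hu k]
    exact Units.mul_inv _
  · rw [← KT1_mul, ← KT1_one q hq]
    congr 1
    funext k
    rw [Pi.mul_apply, Pi.one_apply, ← hu k]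
    exact Units.inv_mul _

theorem KT1_cont (γ : Fin m → C(unitInterval, Matrix (Fin n) (Fin n) ℂ)) :
    Continuous (fun t : unitInterval => KT1_Φ q hq (fun k => γ k t)) := by
  refine continuous_matrix fun i j => ?_
  have h1 : Continuous (fun p : unitInterval × Ω => γ (q p.2) p.1 i j) := by
    have h2 : Continuous (fun p : Fin m × unitInterval => γ p.1 p.2 i j) := by
      rw [continuous_prod_of_discrete_left]
      intro k
      exact (γ k).continuous.matrix_elem i j
    exact h2.comp ((hq.comp continuous_snd).prodMk continuous_fst)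
  exact (ContinuousMap.curry ⟨_, h1⟩).continuous

end aux

theorem KT1 (hK1G : K1G_stmt) (hK1M : K1M_stmt) (hK1C : K1C_stmt) (hGLC : GLC_stmt) :
    KT1_stmt := by
  intro Ω _ _ _ _ y
  obtain ⟨n, g, rfl⟩ := hK1G C(Ω, ℂ) y
  obtain ⟨ε, hε, hC⟩ := hK1C C(Ω, ℂ) (Fin n) g
  -- the values of `g`
  have hval : ∀ x : Ω, IsUnit (Matrix.of (fun i j => (g : Matrix (Fin n) (Fin n) C(Ω, ℂ)) i j x) :
      Matrix (Fin n) (Fin n) ℂ) := by
    intro x
    let φ : C(Ω, ℂ) →+* ℂ :=
      { toFun := fun f => f x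
        map_one' := rfl
        map_mul' := fun _ _ => rfl
        map_zero' := rfl
        map_add' := fun _ _ => rfl }
    exact (g.isUnit.map φ.mapMatrix)
  let V : Type := {M : Matrix (Fin n) (Fin n) ℂ // IsUnit M}
  let F : C(Ω, V) := ⟨fun x => ⟨_, hval x⟩, by
    refine Continuous.subtype_mk ?_ _
    refine continuous_matrix fun i j => ?_
    exact ((g : Matrix (Fin n) (Fin n) C(Ω, ℂ)) i j).continuous⟩
  let S : Set (V × V) := {p | ∀ i j, ‖p.1.1 i j - p.2.1 i j‖ < ε}
  have hS : S ∈ nhdsSet (Set.diagonal V) := by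
    have ho : IsOpen S := by
      have : S = ⋂ i, ⋂ j, {p : V × V | ‖p.1.1 i j - p.2.1 i j‖ < ε} := by
        ext p
        simp [S]
      rw [this]
      refine isOpen_iInter_of_finite fun i => isOpen_iInter_of_finite fun j => ?_
      refine isOpen_lt ?_ continuous_const
      refine Continuous.norm ?_
      exact ((continuous_subtype_val.comp continuous_fst).matrix_elem i j).sub
        ((continuous_subtype_val.comp continuous_snd).matrix_elem i j)
    refine ho.mem_nhdsSet.2 ?_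
    rintro ⟨a, b⟩ (hab : a = b)
    subst hab
    intro i j
    simpa using hε
  obtain ⟨m, q, h, hq, hqS⟩ := F.exists_finite_approximation_of_mem_nhds_diagonal hS
  have hclose : ∀ i j, ‖(g : Matrix (Fin n) (Fin n) C(Ω, ℂ)) i j -
      KT1_Φ q hq (fun k => (h k).1) i j‖ < ε := by
    intro i j
    rw [ContinuousMap.norm_lt_iff _ hε]
    intro x
    exact hqS x i j
  obtain ⟨h', hh', hH⟩ := hC _ hclose
  choose u hu using fun k => (h k).2
  choose γ hγ1 hγ2 hγ3 using fun k => hGLC (Fin n) (u k)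
  have hH2 : Htp h' 1 := by
    refine ⟨⟨_, KT1_cont q hq γ⟩, ?_, ?_, ?_⟩
    · intro t
      exact KT1_unit q hq _ fun k => hγ1 k t
    · rw [hh']
      change KT1_Φ q hq (fun k => γ k 0) = _
      congr 1
      funext k
      rw [hγ2, hu]
    · change KT1_Φ q hq (fun k => γ k 1) = _
      rw [Units.val_one, ← KT1_one q hq]
      congr 1
      funext k
      rw [hγ3]
      rfl
  obtain ⟨-, -, h1, h2⟩ := hK1M C(Ω, ℂ) (Fin n) h' 1
  obtain ⟨-, -, -, h3⟩ := hK1M C(Ω, ℂ) (Fin n) g h'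
  rw [h3 hH, h2 hH2, h1]

end Pool.Agent.PV
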