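import Pool.Agent.helper77.PV.SpecA

/-! Row RNK of project PV (MP_376aaf_an) -/

set_option autoImplicit false

open scoped Matrix Topology
open Filter

namespace Pool.Agent.PV

open Pool.Agent.CZ

/-- evaluation at a point -/
noncomputable def RNK_ev {X : Type} [TopologicalSpace X] (x : X) : C(X, ℂ) →+* ℂ where
  toFun f := f x
  map_one' := rfl
  map_mul' _ _ := rfl
  map_zero' := rfl
  map_add' _ _ := rfl

theorem RNK_tr {X : Type} [TopologicalSpace X] {ι : Type} [Fintype ι] (e : Matrix ι ι C(X, ℂ)) (x : X) :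
    (e.map (RNK_ev x)).trace = ∑ i, e i i x := rfl

theorem RNK_fun (hTRI : TRI_stmt) {X : Type} [TopologicalSpace X] (p : IdemMat C(X, ℂ)) :
    ∃ n : C(X, ℤ), ∀ x, ((n x : ℤ) : ℂ) = ∑ i, p.e i i x := by
  have h1 : ∀ x, ∃ n : ℤ, (n : ℂ) = ∑ i, p.e i i x := by
    intro x
    obtain ⟨r, _, _, hr, _, _⟩ := hTRI (Fin p.n) (p.e.map (RNK_ev x)) (by
      rw [← Matrix.map_mul, p.idem])
    refine ⟨r, ?_⟩
    rw [← RNK_tr, hr]
    simp
  choose n hn using h1
  have hc : Continuous n := by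
    rw [Int.isClosedEmbedding_coe_real.isEmbedding.isInducing.continuous_iff]
    have e : (Int.cast ∘ n : X → ℝ) = fun x => (∑ i, p.e i i x).re := by
      funext x
      rw [← hn x]
      simp
    rw [e]
    refine Complex.continuous_re.comp ?_
    exact continuous_finsetSum _ fun i _ => (p.e i i).continuous
  exact ⟨⟨n, hc⟩, hn⟩

/-- the rank function of an idempotent matrix -/
noncomputable def RNK_r (hTRI : TRI_stmt) {X : Type} [TopologicalSpace X] (p : IdemMat C(X, ℂ)) :
    C(X, ℤ) := (RNK_fun hTRI p).choose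

theorem RNK_spec (hTRI : TRI_stmt) {X : Type} [TopologicalSpace X] (p : IdemMat C(X, ℂ)) (x : X) :
    ((RNK_r hTRI p x : ℤ) : ℂ) = ∑ i, p.e i i x := (RNK_fun hTRI p).choose_spec x

theorem RNK (hTRI : TRI_stmt) : RNK_stmt := by
  intro X _ _
  have hrel : AddSubgroup.closure (K0Rel C(X, ℂ)) ≤
        (FreeAbelianGroup.lift (RNK_r hTRI (X := X))).ker := by
      rw [AddSubgroup.closure_le]
      rintro z (⟨p, q, ⟨x, y, h1, h2⟩, rfl⟩ | ⟨n, e, f, he, hf, hs, hef, hfe, rfl⟩)
      · change FreeAbelianGroup.lift (RNK_r hTRI (X := X)) _ = 0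
        rw [map_sub, FreeAbelianGroup.lift_apply_of, FreeAbelianGroup.lift_apply_of, sub_eq_zero]
        ext t
        have h3 : ((RNK_r hTRI p t : ℤ) : ℂ) = ((RNK_r hTRI q t : ℤ) : ℂ) := by
          rw [RNK_spec, RNK_spec, ← RNK_tr, ← RNK_tr, ← h1, ← h2, Matrix.map_mul, Matrix.map_mul,
            Matrix.trace_mul_comm]
        exact_mod_cast h3
      · change FreeAbelianGroup.lift (RNK_r hTRI (X := X)) _ = 0
        rw [map_sub, map_sub, FreeAbelianGroup.lift_apply_of, FreeAbelianGroup.lift_apply_of,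
          FreeAbelianGroup.lift_apply_of]
        ext t
        have h3 : ((RNK_r hTRI ⟨n, e + f, hs⟩ t - RNK_r hTRI ⟨n, e, he⟩ t -
            RNK_r hTRI ⟨n, f, hf⟩ t : ℤ) : ℂ) = 0 := by
          push_cast
          rw [RNK_spec, RNK_spec, RNK_spec]
          simp only [Matrix.add_apply, ContinuousMap.add_apply, Finset.sum_add_distrib]
          ring
        exact_mod_cast h3
  refine ⟨QuotientAddGroup.lift _ (FreeAbelianGroup.lift (RNK_r hTRI (X := X))) hrel, ?_⟩
  intro ι _ e he x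
  have h1 : (QuotientAddGroup.lift _ (FreeAbelianGroup.lift (RNK_r hTRI (X := X))) hrel) (k0 e he) =
      RNK_r hTRI ⟨Fintype.card ι, e.submatrix (Fintype.equivFin ι).symm (Fintype.equivFin ι).symm, by
        rw [Matrix.submatrix_mul_equiv, he]⟩ := by
    change FreeAbelianGroup.lift (RNK_r hTRI (X := X)) (FreeAbelianGroup.of _) = _
    rw [FreeAbelianGroup.lift_apply_of]
  rw [h1, RNK_spec]
  exact Equiv.sum_comp (Fintype.equivFin ι).symm (fun i => e i i x)

end Pool.Agent.PV
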